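import Pool.Agent.W2helper66.DT.Reg

/-!
# Every finite planar point set has a Delaunay triangulation
-/

set_option autoImplicit false

open Pool.Agent.H962 Filter Topology

namespace Pool.Agent.W2helper66.DT

open Classical in
/-- numbering of the points of `S` starting at `1` -/
noncomputable def idx (S : Finset Plane) (p : Plane) : ℕ :=
  if hp : p ∈ S then (S.equivFin ⟨p, hp⟩ : ℕ) + 1 else 1

theorem idx_pos (S : Finset Plane) (p : Plane) : idx S p ≠ 0 := by
  unfold idx; split_ifs <;> omega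

theorem idx_inj {S : Finset Plane} {p q : Plane} (hp : p ∈ S) (hq : q ∈ S)
    (h : idx S p = idx S q) : p = q := by
  unfold idx at h
  rw [dif_pos hp, dif_pos hq] at h
  have h1 : S.equivFin ⟨p, hp⟩ = S.equivFin ⟨q, hq⟩ := Fin.ext (by omega)
  have := S.equivFin.injective h1
  simpa using this

/-- perturbed paraboloid heights -/
noncomputable def ht (S : Finset Plane) (ε : ℝ) (p : Plane) : ℝ := ‖p‖ ^ 2 + ε ^ idx S p

theorem tendsto_ht (S : Finset Plane) (p : Plane) :
    Tendsto (fun ε => ht S ε p) (𝓝[>] 0) (𝓝 (‖p‖ ^ 2)) := by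
  have h1 : Tendsto (fun ε : ℝ => ht S ε p) (𝓝 0) (𝓝 (ht S 0 p)) := by
    apply Continuous.tendsto
    unfold ht
    fun_prop
  have h2 : ht S 0 p = ‖p‖ ^ 2 := by
    unfold ht; rw [zero_pow (idx_pos S p), add_zero]
  rw [h2] at h1
  exact h1.mono_left nhdsWithin_le_nhds

/-- a nonzero polynomial does not vanish at small positive numbers -/
theorem eventually_ne (Q : Polynomial ℝ) (hQ : Q ≠ 0) : ∀ᶠ ε : ℝ in 𝓝[>] 0, Q.eval ε ≠ 0 := by
  have hF : ({x : ℝ | Q.IsRoot x} \ {0}).Finite :=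
    (Polynomial.finite_setOfPred_isRoot hQ).subset Set.sdiff_subset
  have h1 : ∀ᶠ ε : ℝ in 𝓝 0, ε ∈ ({x : ℝ | Q.IsRoot x} \ {0})ᶜ :=
    hF.isClosed.isOpen_compl.mem_nhds (by simp)
  filter_upwards [h1.filter_mono nhdsWithin_le_nhds, self_mem_nhdsWithin] with ε h2 h3 h4
  exact h2 ⟨h4, ne_of_gt h3⟩

theorem ev_gen (S : Finset Plane) : ∀ᶠ ε : ℝ in 𝓝[>] 0, Gen S (ht S ε) := by
  classical
  have key : ∀ s ∈ S.powerset, ∀ᶠ ε : ℝ in 𝓝[>] 0,
      (∃ φ : U, ∀ p ∈ s, φ (p, 1) = ht S ε p) → AffineIndependent ℝ ((↑) : s → Plane) := by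
    intro s hs
    rw [Finset.mem_powerset] at hs
    by_cases hai : AffineIndependent ℝ ((↑) : s → Plane)
    · exact Eventually.of_forall (fun _ _ => hai)
    · have hnl : ∃ c : Plane → ℝ, ∑ p ∈ s, c p = 0 ∧ ∑ p ∈ s, c p • p = 0 ∧ ∃ p ∈ s, c p ≠ 0 := by
        rw [affineIndependent_iff] at hai
        push Not at hai
        obtain ⟨t, w, hw1, hw2, e, het, hwe⟩ := hai
        refine ⟨fun p => if hp : p ∈ s then (if (⟨p, hp⟩ : s) ∈ t then w ⟨p, hp⟩ else 0) else 0,
          ?_, ?_, e, e.2, ?_⟩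
        · rw [← Finset.sum_coe_sort s (fun p => if hp : p ∈ s then
            (if (⟨p, hp⟩ : s) ∈ t then w ⟨p, hp⟩ else 0) else 0)]
          refine Eq.trans ?_ hw1
          have : ∀ p : s, (if hp : (p : Plane) ∈ s then
            (if (⟨p, hp⟩ : s) ∈ t then w ⟨p, hp⟩ else 0) else 0) = if p ∈ t then w p else 0 := by
            intro p; simp
          rw [Finset.sum_congr rfl (fun p _ => this p), Finset.sum_ite_mem, Finset.univ_inter]
        · rw [← Finset.sum_coe_sort s (fun p => (if hp : p ∈ s then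
            (if (⟨p, hp⟩ : s) ∈ t then w ⟨p, hp⟩ else 0) else 0) • p)]
          refine Eq.trans ?_ hw2
          have : ∀ p : s, (if hp : (p : Plane) ∈ s then
            (if (⟨p, hp⟩ : s) ∈ t then w ⟨p, hp⟩ else 0) else 0) • (p : Plane) =
              if p ∈ t then w p • (p : Plane) else 0 := by
            intro p; simp
          rw [Finset.sum_congr rfl (fun p _ => this p), Finset.sum_ite_mem, Finset.univ_inter]
        · simp [het, hwe]
      obtain ⟨c, hc1, hc2, p0, hp0, hcp0⟩ := hnl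
      let Q : Polynomial ℝ := ∑ p ∈ s, Polynomial.C (c p) *
        (Polynomial.C (‖p‖ ^ 2) + Polynomial.X ^ idx S p)
      have hQ : Q ≠ 0 := by
        intro h0
        have h1 : Q.coeff (idx S p0) = c p0 := by
          simp only [Q, Polynomial.finsetSum_coeff, Polynomial.coeff_C_mul,
            Polynomial.coeff_add, Polynomial.coeff_X_pow, Polynomial.coeff_C]
          rw [Finset.sum_eq_single p0]
          · rw [if_neg (idx_pos S p0)]; simp
          · intro b hb hbp
            rw [if_neg (idx_pos S p0), if_neg]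
            · simp
            · intro he
              exact hbp (idx_inj (hs hb) (hs hp0) he.symm)
          · intro hh; exact absurd hp0 hh
        rw [h0, Polynomial.coeff_zero] at h1
        exact hcp0 h1.symm
      filter_upwards [eventually_ne Q hQ] with ε hε
      rintro ⟨φ, hφ⟩
      exfalso
      apply hε
      have e1 : Q.eval ε = ∑ p ∈ s, c p * ht S ε p := by
        simp only [Q, Polynomial.eval_finsetSum, Polynomial.eval_mul, Polynomial.eval_C,
          Polynomial.eval_add, Polynomial.eval_pow, Polynomial.eval_X, ht]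
      have e2 : ∑ p ∈ s, c p * ht S ε p = φ (∑ p ∈ s, c p • ((p, 1) : Plane × ℝ)) := by
        rw [map_sum]
        exact Finset.sum_congr rfl (fun p hp => by rw [map_smul, smul_eq_mul, hφ p hp])
      have e3 : ∑ p ∈ s, c p • ((p, 1) : Plane × ℝ) = 0 := by
        ext1
        · rw [Prod.fst_sum]; simpa using hc2
        · rw [Prod.snd_sum]; simpa using hc1
      rw [e1, e2, e3, map_zero]
  have := (Finset.eventually_all S.powerset).2 key
  filter_upwards [this] with ε hε s hs hφ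
  exact hε s (Finset.mem_powerset.2 hs) hφ

theorem ev_vert (S : Finset Plane) :
    ∀ᶠ ε : ℝ in 𝓝[>] 0, ∀ p ∈ S, ∀ q ∈ S, p ≠ q → ht S ε p - ‖p‖ ^ 2 < ‖q - p‖ ^ 2 + ε ^ idx S q := by
  apply (Finset.eventually_all S).2
  intro p _
  apply (Finset.eventually_all S).2
  intro q _
  by_cases hpq : p = q
  · exact Eventually.of_forall (fun _ h => absurd hpq h)
  · have h1 : Tendsto (fun ε : ℝ => ht S ε p - ‖p‖ ^ 2) (𝓝[>] 0) (𝓝 0) := by
      have := (tendsto_ht S p).sub_const (‖p‖ ^ 2)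
      simpa using this
    have h2 : 0 < ‖q - p‖ ^ 2 := by
      have : 0 < ‖q - p‖ := norm_pos_iff.2 (sub_ne_zero.2 (Ne.symm hpq))
      positivity
    filter_upwards [h1.eventually_lt_const h2, self_mem_nhdsWithin] with ε h3 h4 _
    have : 0 < ε ^ idx S q := pow_pos h4 _
    linarith

theorem ev_del (S : Finset Plane) :
    ∀ᶠ ε : ℝ in 𝓝[>] 0, ∀ T ∈ S.powerset, ∀ q ∈ S,
      (∃ b : Plane → ℝ, ∑ t ∈ T, b t = 1 ∧ ∑ t ∈ T, b t • t = q ∧
        ‖q‖ ^ 2 < ∑ t ∈ T, b t * ‖t‖ ^ 2) →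
      ∃ b : Plane → ℝ, ∑ t ∈ T, b t = 1 ∧ ∑ t ∈ T, b t • t = q ∧
        ht S ε q < ∑ t ∈ T, b t * ht S ε t := by
  apply (Finset.eventually_all S.powerset).2
  intro T _
  apply (Finset.eventually_all S).2
  intro q _
  by_cases hb : ∃ b : Plane → ℝ, ∑ t ∈ T, b t = 1 ∧ ∑ t ∈ T, b t • t = q ∧
        ‖q‖ ^ 2 < ∑ t ∈ T, b t * ‖t‖ ^ 2
  · obtain ⟨b, h1, h2, h3⟩ := hb
    have h4 : Tendsto (fun ε : ℝ => ∑ t ∈ T, b t * ht S ε t) (𝓝[>] 0)
        (𝓝 (∑ t ∈ T, b t * ‖t‖ ^ 2)) :=
      tendsto_finsetSum _ (fun t _ => (tendsto_ht S t).const_mul (b t))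
    filter_upwards [(tendsto_ht S q).eventually_lt h4 h3] with ε h5 _
    exact ⟨b, h1, h2, h5⟩
  · exact Eventually.of_forall (fun _ h => absurd h hb)

theorem exists_isDelaunay (S : Finset Plane) :
    ∃ K : Geometry.SimplicialComplex ℝ Plane, IsDelaunay S K := by
  classical
  obtain ⟨ε, ⟨⟨hG, hV⟩, hD⟩, hε⟩ :=
    (((ev_gen S).and (ev_vert S)).and (ev_del S)).and self_mem_nhdsWithin |>.exists
  refine ⟨cx S (ht S ε) hG, ?_, cx_space _ _ hG, ?_⟩
  · ext p
    change ({p} : Finset Plane) ∈ cells S (ht S ε) ↔ p ∈ (S : Set Plane)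
    constructor
    · intro h
      exact h.2.1 (Finset.mem_singleton_self p)
    · intro hp
      have hp : p ∈ S := hp
      refine ⟨Finset.singleton_nonempty p, Finset.singleton_subset_iff.2 hp, ?_⟩
      refine ⟨(2 : ℝ) • ((innerₛₗ ℝ p) ∘ₗ LinearMap.fst ℝ Plane ℝ) +
        (ht S ε p - 2 * ‖p‖ ^ 2) • LinearMap.snd ℝ Plane ℝ, ?_, ?_⟩
      · intro q hq
        rw [Finset.mem_singleton] at hq
        subst hq
        simp
      · intro q hq hqp
        rw [Finset.mem_singleton] at hqp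
        have h1 := hV p hp q hq (Ne.symm hqp)
        have h2 : ‖q - p‖ ^ 2 = ‖q‖ ^ 2 - 2 * inner ℝ p q + ‖p‖ ^ 2 := by
          rw [norm_sub_sq_real, real_inner_comm]
        simp only [LinearMap.add_apply, LinearMap.smul_apply, LinearMap.comp_apply,
          LinearMap.fst_apply, LinearMap.snd_apply, smul_eq_mul, mul_one, innerₛₗ_apply_apply]
        have h3 : ht S ε q = ‖q‖ ^ 2 + ε ^ idx S q := rfl
        rw [h3]
        linarith
  · intro T hT hcard
    obtain ⟨_, hTS, φ, hφ⟩ := hT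
    have hai := hG T hTS ⟨φ, hφ.1⟩
    -- the circumcircle
    obtain ⟨ψ, hψ⟩ := interp hai (fun p => ‖p‖ ^ 2)
    let L : Plane →L[ℝ] ℝ := LinearMap.toContinuousLinearMap (ψ ∘ₗ LinearMap.inl ℝ Plane ℝ)
    let c : Plane := (1 / 2 : ℝ) • (InnerProductSpace.toDual ℝ Plane).symm L
    have hc : ∀ p : Plane, ψ (p, 1) = 2 * inner ℝ c p + ψ (0, 1) := by
      intro p
      have h1 : ψ (p, 1) = ψ (p, 0) + ψ (0, 1) := by
        rw [← map_add]; simp
      have h2 : ψ (p, 0) = 2 * inner ℝ c p := by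
        have h3 : inner ℝ ((InnerProductSpace.toDual ℝ Plane).symm L) p = L p :=
          InnerProductSpace.toDual_symm_apply
        have h4 : L p = ψ (p, 0) := rfl
        rw [← h4, ← h3]
        simp only [c, inner_smul_left]
        simp
      rw [h1, h2]
    have hpow : ∀ p : Plane, ‖p - c‖ ^ 2 = ‖p‖ ^ 2 - ψ (p, 1) + (‖c‖ ^ 2 + ψ (0, 1)) := by
      intro p
      rw [norm_sub_sq_real, hc p, real_inner_comm]
      ring
    have hT' : ∀ p ∈ T, ‖p - c‖ ^ 2 = ‖c‖ ^ 2 + ψ (0, 1) := by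
      intro p hp
      rw [hpow p, hψ p hp]; ring
    refine ⟨c, Real.sqrt (‖c‖ ^ 2 + ψ (0, 1)), ?_, ?_⟩
    · intro p hp
      rw [← hT' p hp, Real.sqrt_sq (norm_nonneg _), dist_eq_norm]
    · intro q hq
      by_contra hlt
      push Not at hlt
      have hlt2 : ‖q - c‖ ^ 2 < ‖c‖ ^ 2 + ψ (0, 1) := by
        rw [dist_eq_norm] at hlt
        exact (Real.lt_sqrt (norm_nonneg _)).1 hlt
      have hq2 : ‖q‖ ^ 2 < ψ (q, 1) := by
        have := hpow q
        linarith
      -- barycentric coordinates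
      have hli := li_of_ai hai
      have hspan : Submodule.span ℝ (Set.range (fun p : T => ((p : Plane), (1 : ℝ)))) = ⊤ := by
        apply hli.span_eq_top_of_card_eq_finrank'
        rw [Fintype.card_coe, hcard, Module.finrank_prod]
        simp
      have hmem : ((q, 1) : Plane × ℝ) ∈
          Submodule.span ℝ (Set.range (fun p : T => ((p : Plane), (1 : ℝ)))) := by
        rw [hspan]; trivial
      rw [Submodule.mem_span_range_iff_exists_fun] at hmem
      obtain ⟨b, hb⟩ := hmem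
      let b' : Plane → ℝ := fun p => if hp : p ∈ T then b ⟨p, hp⟩ else 0
      have hbb : ∀ p : T, b' p = b p := by intro p; simp [b']
      have hs1 : ∑ t ∈ T, b' t = 1 := by
        rw [← Finset.sum_coe_sort T b']
        have := congrArg Prod.snd hb
        rw [Prod.snd_sum] at this
        simpa [hbb] using this
      have hs2 : ∑ t ∈ T, b' t • t = q := by
        rw [← Finset.sum_coe_sort T (fun t => b' t • t)]
        have := congrArg Prod.fst hb
        rw [Prod.fst_sum] at this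
        simpa [hbb] using this
      have hs3 : ‖q‖ ^ 2 < ∑ t ∈ T, b' t * ‖t‖ ^ 2 := by
        rw [apply_comb ψ hs1 hs2] at hq2
        refine hq2.trans_eq (Finset.sum_congr rfl (fun t ht => by rw [hψ t ht]))
      obtain ⟨d, hd1, hd2, hd3⟩ := hD T (Finset.mem_powerset.2 hTS) q hq ⟨b', hs1, hs2, hs3⟩
      have h5 : φ (q, 1) = ∑ t ∈ T, d t * ht S ε t := by
        rw [apply_comb φ hd1 hd2]
        exact Finset.sum_congr rfl (fun t ht => by rw [hφ.1 t ht])
      have h6 := supp_le hφ hq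
      linarith

end Pool.Agent.W2helper66.DT
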