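import Pool.Agent.H962.Defs
import Pool.Agent.H249R2.PM.Farkas

/-!
# Regular triangulations of finite planar point sets as geometric simplicial complexes
-/

set_option autoImplicit false

open Pool.Agent.H962

namespace Pool.Agent.W2helper66.DT

/-- affine functions on the plane, written as linear functionals on `Plane × ℝ` -/
abbrev U := Module.Dual ℝ (Plane × ℝ)

/-- `φ` supports the heights `h` exactly at the points of `s` -/
def Supp (S : Finset Plane) (h : Plane → ℝ) (s : Finset Plane) (φ : U) : Prop :=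
  (∀ p ∈ s, φ (p, 1) = h p) ∧ (∀ p ∈ S, p ∉ s → φ (p, 1) < h p)

/-- the cells of the regular subdivision -/
def cells (S : Finset Plane) (h : Plane → ℝ) : Set (Finset Plane) :=
  {s | s.Nonempty ∧ s ⊆ S ∧ ∃ φ, Supp S h s φ}

/-- generic heights -/
def Gen (S : Finset Plane) (h : Plane → ℝ) : Prop :=
  ∀ s ⊆ S, (∃ φ : U, ∀ p ∈ s, φ (p, 1) = h p) → AffineIndependent ℝ ((↑) : s → Plane)

theorem farkas_fintype {V ι : Type*} [AddCommGroup V] [Module ℝ V] [Fintype ι]
    (ℓ : ι → (V →ₗ[ℝ] ℝ)) (f : V →ₗ[ℝ] ℝ) (h : ∀ x, (∀ i, ℓ i x ≤ 0) → f x ≤ 0) :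
    ∃ w : ι → ℝ, (∀ i, 0 ≤ w i) ∧ ∀ x, f x = ∑ i, w i * ℓ i x := by
  let e := Fintype.equivFin ι
  obtain ⟨w, hw, hf⟩ := Pool.Agent.H249R2.PM.farkas_lin (Fintype.card ι)
    (fun i => ℓ (e.symm i)) f (fun x hx => h x (fun i => by
      have := hx (e i); simpa using this))
  refine ⟨fun i => w (e i), fun i => hw _, fun x => ?_⟩
  rw [hf x]
  exact Fintype.sum_equiv e.symm _ _ (fun i => by simp)

/-- affinely independent points are linearly independent after lifting -/
theorem li_of_ai {s : Finset Plane} (hs : AffineIndependent ℝ ((↑) : s → Plane)) :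
    LinearIndependent ℝ (fun p : s => ((p : Plane), (1 : ℝ))) := by
  rw [Fintype.linearIndependent_iff]
  intro g hg i
  rw [affineIndependent_iff] at hs
  have h1 : ∑ i, g i • (i : Plane) = 0 := by
    have := congrArg Prod.fst hg
    simpa [Prod.fst_sum] using this
  have h2 : ∑ i, g i = 0 := by
    have := congrArg Prod.snd hg
    simpa [Prod.snd_sum] using this
  exact hs Finset.univ g h2 h1 i (Finset.mem_univ i)

/-- interpolation -/
theorem interp {s : Finset Plane} (hs : AffineIndependent ℝ ((↑) : s → Plane)) (v : Plane → ℝ) :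
    ∃ φ : U, ∀ p ∈ s, φ (p, 1) = v p := by
  classical
  have hli := li_of_ai hs
  obtain ⟨g, hg⟩ := LinearMap.exists_leftInverse_of_injective _
    (LinearMap.ker_eq_bot.2 (LinearIndependent.fintypeLinearCombination_injective hli))
  refine ⟨(∑ i : s, v i • LinearMap.proj i) ∘ₗ g, fun p hp => ?_⟩
  have h1 : g (p, 1) = Pi.single ⟨p, hp⟩ 1 := by
    have := congrArg (fun f => f (Pi.single ⟨p, hp⟩ 1)) hg
    simpa [Fintype.linearCombination_apply_single] using this
  rw [LinearMap.comp_apply, h1, LinearMap.sum_apply]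
  rw [Finset.sum_eq_single (⟨p, hp⟩ : s)]
  · simp
  · intro b _ hb
    simp [hb]
  · intro hh; exact absurd (Finset.mem_univ _) hh

theorem cells_down {S : Finset Plane} {h : Plane → ℝ} (hG : Gen S h) {s t : Finset Plane}
    (hs : s ∈ cells S h) (hts : t ⊆ s) (ht : t.Nonempty) : t ∈ cells S h := by
  classical
  obtain ⟨_, hsS, φ, hφ1, hφ2⟩ := hs
  obtain ⟨a, ha⟩ := interp (hG s hsS ⟨φ, hφ1⟩) (fun p => if p ∈ t then 0 else -1)
  have hev : ∀ p ∈ S \ s, ∀ᶠ ε : ℝ in nhdsWithin 0 (Set.Ioi 0), ε * a (p, 1) < h p - φ (p, 1) := by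
    intro p hp
    rw [Finset.mem_sdiff] at hp
    have h1 : Filter.Tendsto (fun ε : ℝ => ε * a (p, 1)) (nhdsWithin 0 (Set.Ioi 0))
        (nhds (0 * a (p, 1))) :=
      (Filter.tendsto_id.mul_const _).mono_left nhdsWithin_le_nhds
    rw [zero_mul] at h1
    exact h1.eventually_lt_const (by linarith [hφ2 p hp.1 hp.2])
  have hev2 := (Finset.eventually_all (S \ s)).2 hev
  obtain ⟨ε, hε1, hε2⟩ := (hev2.and self_mem_nhdsWithin).exists
  have hε0 : (0 : ℝ) < ε := hε2
  refine ⟨ht, hts.trans hsS, φ + ε • a, ?_, ?_⟩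
  · intro p hp
    rw [LinearMap.add_apply, LinearMap.smul_apply, hφ1 p (hts hp), ha p (hts hp), if_pos hp]
    simp
  · intro p hp hpt
    rw [LinearMap.add_apply, LinearMap.smul_apply, smul_eq_mul]
    by_cases hps : p ∈ s
    · rw [hφ1 p hps, ha p hps, if_neg hpt]; linarith
    · have := hε1 p (Finset.mem_sdiff.2 ⟨hp, hps⟩)
      linarith

theorem supp_le {S : Finset Plane} {h : Plane → ℝ} {s : Finset Plane} {φ : U}
    (hφ : Supp S h s φ) {p : Plane} (hp : p ∈ S) : φ (p, 1) ≤ h p := by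
  by_cases h1 : p ∈ s
  · exact (hφ.1 p h1).le
  · exact (hφ.2 p hp h1).le

theorem apply_comb (φ : U) {s : Finset Plane} {w : Plane → ℝ} {x : Plane}
    (h1 : ∑ y ∈ s, w y = 1) (h2 : ∑ y ∈ s, w y • y = x) :
    φ (x, 1) = ∑ y ∈ s, w y * φ (y, 1) := by
  have e : ((x, 1) : Plane × ℝ) = ∑ y ∈ s, w y • ((y, 1) : Plane × ℝ) := by
    ext1
    · rw [Prod.fst_sum]; simpa using h2.symm
    · rw [Prod.snd_sum]; simpa using h1.symm
  rw [e, map_sum]
  exact Finset.sum_congr rfl (fun y _ => by rw [map_smul, smul_eq_mul])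

theorem cells_inter {S : Finset Plane} {h : Plane → ℝ} {s t : Finset Plane}
    (hs : s ∈ cells S h) (ht : t ∈ cells S h) :
    convexHull ℝ (s : Set Plane) ∩ convexHull ℝ (t : Set Plane) ⊆
      convexHull ℝ ((s : Set Plane) ∩ (t : Set Plane)) := by
  classical
  rintro x ⟨hxs, hxt⟩
  obtain ⟨_, hsS, φ, hφ⟩ := hs
  obtain ⟨_, htS, ψ, hψ⟩ := ht
  rw [Finset.mem_convexHull'] at hxs hxt
  obtain ⟨w, hw0, hw1, hwx⟩ := hxs
  obtain ⟨v, hv0, hv1, hvx⟩ := hxt
  have a1 : φ (x, 1) = ∑ y ∈ s, w y * h y := by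
    rw [apply_comb φ hw1 hwx]
    exact Finset.sum_congr rfl (fun y hy => by rw [hφ.1 y hy])
  have a2 : ψ (x, 1) ≤ ∑ y ∈ s, w y * h y := by
    rw [apply_comb ψ hw1 hwx]
    exact Finset.sum_le_sum (fun y hy => mul_le_mul_of_nonneg_left (supp_le hψ (hsS hy)) (hw0 y hy))
  have b1 : ψ (x, 1) = ∑ y ∈ t, v y * h y := by
    rw [apply_comb ψ hv1 hvx]
    exact Finset.sum_congr rfl (fun y hy => by rw [hψ.1 y hy])
  have b2 : φ (x, 1) ≤ ∑ y ∈ t, v y * h y := by
    rw [apply_comb φ hv1 hvx]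
    exact Finset.sum_le_sum (fun y hy => mul_le_mul_of_nonneg_left (supp_le hφ (htS hy)) (hv0 y hy))
  have hzero : ∑ y ∈ s, w y * (h y - ψ (y, 1)) = 0 := by
    have : ∑ y ∈ s, w y * (h y - ψ (y, 1)) = (∑ y ∈ s, w y * h y) - ψ (x, 1) := by
      rw [apply_comb ψ hw1 hwx, ← Finset.sum_sub_distrib]
      exact Finset.sum_congr rfl (fun y _ => by ring)
    rw [this]; linarith
  have hall := (Finset.sum_eq_zero_iff_of_nonneg (fun y hy =>
    mul_nonneg (hw0 y hy) (sub_nonneg.2 (supp_le hψ (hsS hy))))).1 hzero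
  have hwz : ∀ y ∈ s, y ∉ t → w y = 0 := by
    intro y hy hyt
    rcases mul_eq_zero.1 (hall y hy) with h0 | h0
    · exact h0
    · exact absurd (hψ.2 y (hsS hy) hyt) (by linarith)
  rw [← Finset.coe_inter, Finset.mem_convexHull']
  refine ⟨w, fun y hy => hw0 y (Finset.mem_inter.1 hy).1, ?_, ?_⟩
  · rw [← hw1]
    apply Finset.sum_subset Finset.inter_subset_left
    intro y hy hyn
    exact hwz y hy (fun hyt => hyn (Finset.mem_inter.2 ⟨hy, hyt⟩))
  · rw [← hwx]
    apply Finset.sum_subset Finset.inter_subset_left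
    intro y hy hyn
    rw [hwz y hy (fun hyt => hyn (Finset.mem_inter.2 ⟨hy, hyt⟩)), zero_smul]

/-- linear programming duality -/
theorem exists_support {S : Finset Plane} (h : Plane → ℝ) {x : Plane}
    (hx : x ∈ convexHull ℝ (S : Set Plane)) :
    ∃ s ∈ cells S h, x ∈ convexHull ℝ (s : Set Plane) := by
  classical
  rw [Finset.mem_convexHull'] at hx
  obtain ⟨w0, hw0, hw1, hwx⟩ := hx
  -- the set of representations
  let W : Set (S → ℝ) := stdSimplex ℝ S ∩ {w | ∑ p : S, w p • (p : Plane) = x}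
  have hWc : IsCompact W := by
    apply (isCompact_stdSimplex ℝ S).inter_right
    apply isClosed_eq _ continuous_const
    fun_prop
  have hWn : W.Nonempty := by
    refine ⟨fun p => w0 p, ⟨fun p => hw0 p p.2, ?_⟩, ?_⟩
    · rw [← hw1]; exact Finset.sum_coe_sort S w0
    · change ∑ p : S, w0 p • (p : Plane) = x
      rw [← hwx]; exact Finset.sum_coe_sort S (fun p => w0 p • p)
  obtain ⟨w, hwW, hwmin⟩ := hWc.exists_isMinOn hWn
    (f := fun w : S → ℝ => ∑ p : S, w p * h p) (by fun_prop)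
  set τ := ∑ p : S, w p * h p with hτ
  have hmin : ∀ v ∈ W, τ ≤ ∑ p : S, v p * h p := fun v hv => hwmin hv
  -- duality
  have hφ : ∃ φ : U, (∀ p ∈ S, φ (p, 1) ≤ h p) ∧ τ ≤ φ (x, 1) := by
    by_contra hno
    push Not at hno
    let ev : Plane → (U × ℝ →ₗ[ℝ] ℝ) := fun p =>
      (LinearMap.applyₗ ((p, 1) : Plane × ℝ)) ∘ₗ LinearMap.fst ℝ U ℝ
    have hev : ∀ p z, ev p z = z.1 (p, 1) := fun p z => rfl
    let ℓ : Option S → (U × ℝ →ₗ[ℝ] ℝ) := fun o => o.elim
      (τ • LinearMap.snd ℝ U ℝ - ev x) (fun p => ev p - h p • LinearMap.snd ℝ U ℝ)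
    obtain ⟨c, hc0, hc⟩ := farkas_fintype ℓ (LinearMap.snd ℝ U ℝ) (by
      rintro ⟨φ, s⟩ hz
      by_contra hs
      push Not at hs
      change 0 < s at hs
      have h1 : ∀ p ∈ S, (s⁻¹ • φ) (p, 1) ≤ h p := by
        intro p hp
        have := hz (some ⟨p, hp⟩)
        change φ (p, 1) - h p * s ≤ 0 at this
        rw [LinearMap.smul_apply, smul_eq_mul, inv_mul_le_iff₀ hs]
        linarith
      have h2 := hno _ h1
      have h3 := hz none
      change τ * s - φ (x, 1) ≤ 0 at h3
      rw [LinearMap.smul_apply, smul_eq_mul, inv_mul_lt_iff₀ hs] at h2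
      linarith)
    have hc1 : ∀ z : U × ℝ, z.2 = c none * (τ * z.2 - z.1 (x, 1)) +
        ∑ p : S, c (some p) * (z.1 ((p : Plane), 1) - h p * z.2) := by
      intro z
      have := hc z
      rw [Fintype.sum_option] at this
      exact this
    have hA : (1 : ℝ) = c none * τ - ∑ p : S, c (some p) * h p := by
      have := hc1 (0, 1)
      simp only [LinearMap.zero_apply, mul_one, sub_zero, zero_sub] at this
      rw [this, sub_eq_add_neg, ← Finset.sum_neg_distrib]
      congr 1
      exact Finset.sum_congr rfl (fun p _ => by ring)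
    have hB : ∀ φ : U, c none * φ (x, 1) = ∑ p : S, c (some p) * φ ((p : Plane), 1) := by
      intro φ
      have := hc1 (φ, 0)
      simp only [mul_zero, zero_sub, sub_zero] at this
      linarith
    have hC : c none = ∑ p : S, c (some p) := by
      have := hB (LinearMap.snd ℝ Plane ℝ)
      simpa using this
    rcases (hc0 none).eq_or_lt with h0 | h0
    · have hz : ∀ p : S, c (some p) = 0 := by
        rw [← h0] at hC
        intro p
        exact (Finset.sum_eq_zero_iff_of_nonneg (fun p _ => hc0 (some p))).1 hC.symm p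
          (Finset.mem_univ p)
      rw [← h0] at hA
      simp [hz] at hA
    · have hv : (fun p : S => c (some p) / c none) ∈ W := by
        refine ⟨⟨fun p => div_nonneg (hc0 _) h0.le, ?_⟩, ?_⟩
        · rw [← Finset.sum_div, ← hC, div_self h0.ne']
        · change ∑ p : S, (c (some p) / c none) • (p : Plane) = x
          rw [← sub_eq_zero, ← Module.forall_dual_apply_eq_zero_iff ℝ]
          intro f
          have h1 := hB (f ∘ₗ LinearMap.fst ℝ Plane ℝ)
          simp only [LinearMap.comp_apply, LinearMap.fst_apply] at h1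
          rw [map_sub, map_sum, sub_eq_zero, ← mul_right_inj' h0.ne', h1, Finset.mul_sum]
          refine Finset.sum_congr rfl (fun p _ => ?_)
          rw [map_smul, smul_eq_mul]
          field_simp
      have h1 := hmin _ hv
      have h2 : ∑ p : S, c (some p) / c none * h p = (c none * τ - 1) / c none := by
        rw [eq_div_iff h0.ne', Finset.sum_mul]
        have : ∑ p : S, c (some p) / c none * h p * c none = ∑ p : S, c (some p) * h p :=
          Finset.sum_congr rfl (fun p _ => by field_simp)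
        rw [this]; linarith
      rw [h2, le_div_iff₀ h0] at h1
      linarith
  obtain ⟨φ, hφ1, hφ2⟩ := hφ
  obtain ⟨⟨hw0', hw1'⟩, hwx'⟩ := hwW
  change ∑ p : S, w p • (p : Plane) = x at hwx'
  have e1 : φ (x, 1) = ∑ p : S, w p * φ ((p : Plane), 1) := by
    have e : ((x, 1) : Plane × ℝ) = ∑ p : S, w p • (((p : Plane), 1) : Plane × ℝ) := by
      ext1
      · rw [Prod.fst_sum]; simpa using hwx'.symm
      · rw [Prod.snd_sum]; simpa using hw1'.symm
    rw [e, map_sum]
    exact Finset.sum_congr rfl (fun y _ => by rw [map_smul, smul_eq_mul])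
  have e2 : ∑ p : S, w p * (h p - φ ((p : Plane), 1)) = 0 := by
    apply le_antisymm
    · have : ∑ p : S, w p * (h p - φ ((p : Plane), 1)) = τ - φ (x, 1) := by
        rw [e1, hτ, ← Finset.sum_sub_distrib]
        exact Finset.sum_congr rfl (fun y _ => by ring)
      rw [this]; linarith
    · exact Finset.sum_nonneg (fun p _ => mul_nonneg (hw0' p) (sub_nonneg.2 (hφ1 p p.2)))
  have e3 := (Finset.sum_eq_zero_iff_of_nonneg (fun (p : S) _ =>
    mul_nonneg (hw0' p) (sub_nonneg.2 (hφ1 p p.2)))).1 e2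
  let s : Finset Plane := S.filter (fun p => φ (p, 1) = h p)
  have hsupp : ∀ p : S, (p : Plane) ∉ s → w p = 0 := by
    intro p hp
    rcases mul_eq_zero.1 (e3 p (Finset.mem_univ p)) with h0 | h0
    · exact h0
    · exact absurd (Finset.mem_filter.2 ⟨p.2, by linarith⟩) hp
  have hxs : x ∈ convexHull ℝ (s : Set Plane) := by
    rw [Finset.mem_convexHull']
    refine ⟨fun p => if hp : p ∈ S then w ⟨p, hp⟩ else 0, ?_, ?_, ?_⟩
    · intro y _
      dsimp only
      split_ifs with hy
      · exact hw0' _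
      · exact le_refl _
    · rw [← hw1']
      have : ∑ p : S, (if hp : (p : Plane) ∈ S then w ⟨p, hp⟩ else 0) = ∑ p : S, w p :=
        Finset.sum_congr rfl (fun p _ => by simp)
      rw [← this, Finset.sum_coe_sort S (fun p => if hp : p ∈ S then w ⟨p, hp⟩ else 0)]
      apply Finset.sum_subset (Finset.filter_subset _ _)
      intro y hy hys
      rw [dif_pos hy]
      exact hsupp ⟨y, hy⟩ hys
    · rw [← hwx']
      have : ∑ p : S, w p • (p : Plane) =
          ∑ p : S, (if hp : (p : Plane) ∈ S then w ⟨p, hp⟩ else 0) • (p : Plane) :=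
        Finset.sum_congr rfl (fun p _ => by simp)
      rw [this, Finset.sum_coe_sort S (fun p => (if hp : p ∈ S then w ⟨p, hp⟩ else 0) • p)]
      apply Finset.sum_subset (Finset.filter_subset _ _)
      intro y hy hys
      dsimp only
      rw [dif_pos hy, hsupp ⟨y, hy⟩ hys, zero_smul]
  refine ⟨s, ⟨?_, Finset.filter_subset _ _, φ, ?_, ?_⟩, hxs⟩
  · have := (convexHull_nonempty_iff (𝕜 := ℝ)).1 ⟨x, hxs⟩
    simpa using this
  · intro p hp
    exact (Finset.mem_filter.1 hp).2
  · intro p hp hps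
    refine lt_of_le_of_ne (hφ1 p hp) (fun h => hps (Finset.mem_filter.2 ⟨hp, h⟩))

/-- the regular triangulation -/
def cx (S : Finset Plane) (h : Plane → ℝ) (hG : Gen S h) : Geometry.SimplicialComplex ℝ Plane where
  faces := cells S h
  isRelLowerSet_faces := fun s hs => ⟨hs.1, fun t hts ht => cells_down hG hs hts ht⟩
  indep := fun {s} hs => by
    obtain ⟨_, hsS, φ, hφ⟩ := hs
    exact hG s hsS ⟨φ, hφ.1⟩
  inter_subset_convexHull := fun {s t} hs ht => cells_inter hs ht

theorem cx_space (S : Finset Plane) (h : Plane → ℝ) (hG : Gen S h) :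
    (cx S h hG).space = convexHull ℝ (S : Set Plane) := by
  apply Set.Subset.antisymm
  · intro x hx
    rw [Geometry.SimplicialComplex.mem_space_iff] at hx
    obtain ⟨s, hs, hx⟩ := hx
    exact convexHull_mono (by exact_mod_cast hs.2.1) hx
  · intro x hx
    rw [Geometry.SimplicialComplex.mem_space_iff]
    obtain ⟨s, hs, hx⟩ := exists_support h hx
    exact ⟨s, hs, hx⟩

end Pool.Agent.W2helper66.DT
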