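import Pool.Agent.W2helper66.DT.K.Fin
import Pool.Agent.H962.Delaunay

/-!
# The stretch factor bound of the starting file `MP_74021c_co/StretchUpper`

Same proof as in that file; only the files with the kernel computations are imported in parallel
instead of one after the other.
-/

set_option autoImplicit false

namespace Pool.Agent.W2helper66.DT

open Pool.Agent.H962

/-- Every Delaunay triangulation of a finite planar point set is a `1.6046`-spanner. -/
theorem spanner (S : Finset Plane) (K : Geometry.SimplicialComplex ℝ Plane) (hK : IsDelaunay S K)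
    (u v : Plane) (hu : u ∈ S) (hv : v ∈ S) :
    ∃ w : (edgeGraph K).Walk u v, walkLength w ≤ (16046 / 10000 : ℝ) * dist u v := by
  obtain ⟨W, hW⟩ := Pool.Agent.W2helper66.DT.KD.kok.potSys
  have e1 : (Pool.Agent.H962.KD.tN : ℝ) = 16046 := by
    exact_mod_cast (rfl : Pool.Agent.H962.KD.tN = 16046)
  have e : ((Pool.Agent.H962.KD.tN : ℝ) / 10000) = 16046 / 10000 := by rw [e1]
  rw [e] at hW
  exact spanner_of_potSys hW (by norm_num) hK hu hv

end Pool.Agent.W2helper66.DT
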